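import Mathlib
import Pool.Agent.Helper198.CurveDefs
import Pool.Agent.Helper198.SchZF

set_option autoImplicit false

open AlgebraicGeometry CategoryTheory Limits TopologicalSpace
open Pool.Agent.Helper198.CurveFamily Pool.Agent.Helper198.Sch

namespace Pool.Agent.Results.MP_c134c3_ag.NoQuadraticBound

section

variable (p : ℕ) [hp : Fact p.Prime] (k : Type) [Field k] [CharP k p]

lemma covering [IsAlgClosed k] [Infinite k] : (fam p k).IsCovering := by
  have hoi := isOpenImmersion_pt p k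
  have hint := isIntegral_VX' p k
  refine ⟨((ptT p k ≫ toX p k).opensRange : Set (V (JX p k))),
    (ptT p k ≫ toX p k).opensRange.2, ?_, ?_⟩
  · apply IsOpen.dense (ptT p k ≫ toX p k).opensRange.2
    have : Nonempty (TT p k) := inferInstance
    exact Set.range_nonempty _
  · intro x
    refine Iff.trans ?_ (covering_aux p k x)
    constructor
    · rintro ⟨t, ht⟩
      refine ⟨t.1, t.2, ?_⟩
      rw [← ht]
      exact (square_pt (mrk_icl t.1) (IsLocalRing.closedPoint k)).symm
    · rintro ⟨t, ht, rfl⟩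
      exact ⟨⟨t, ht⟩, square_pt (mrk_icl t) (IsLocalRing.closedPoint k)⟩

lemma selfIntersection [Infinite k] : (fam p k).HasSelfIntersection p := by
  constructor
  · obtain ⟨s, t, hs, ht, hst⟩ := exists_ne_icl (p := p) (k := k)
    exact ⟨⟨s, hs⟩, ⟨t, ht⟩, hst⟩
  · rintro s t hst
    exact intersection_icl s.1 t.1 s.2 t.2 hst

end

/-- Main result. -/
theorem result :
    (∀ (p : ℕ) [Fact p.Prime] (k : Type) [Field k] [IsAlgClosed k] [CharP k p],
      ∃ (X : Scheme.{0}) (sX : X ⟶ Spec (.of k)) (F : PointedCurveFamily sX),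
        IsSmoothProjectiveSurface sX ∧ F.IsCovering ∧ F.HasMultiplicity p ∧
          F.HasSelfIntersection p) ∧
    (∀ a : ℝ, 0 < a →
      ∃ (p : ℕ) (_ : Fact p.Prime) (k : Type) (_ : Field k) (_ : IsAlgClosed k) (_ : CharP k p)
        (X : Scheme.{0}) (sX : X ⟶ Spec (.of k)) (F : PointedCurveFamily sX) (m d : ℕ),
        1 ≤ m ∧ IsSmoothProjectiveSurface sX ∧ F.IsCovering ∧ F.HasMultiplicity m ∧
          F.HasSelfIntersection d ∧ (d : ℝ) < a * (m : ℝ) ^ 2) := by
  have main : ∀ (p : ℕ) [Fact p.Prime] (k : Type) [Field k] [IsAlgClosed k] [CharP k p],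
      ∃ (X : Scheme.{0}) (sX : X ⟶ Spec (.of k)) (F : PointedCurveFamily sX),
        IsSmoothProjectiveSurface sX ∧ F.IsCovering ∧ F.HasMultiplicity p ∧
          F.HasSelfIntersection p := by
    intro p _ k _ _ _
    have : Infinite k := IsAlgClosed.instInfinite
    exact ⟨_, _, fam p k, isSmoothProjectiveSurface_VX p k, covering p k, hasMultiplicity_fam,
      selfIntersection p k⟩
  refine ⟨main, ?_⟩
  intro a ha
  obtain ⟨p, hp1, hp2⟩ := Nat.exists_infinite_primes (⌈1 / a⌉₊ + 1)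
  have hpf : Fact p.Prime := ⟨hp2⟩
  obtain ⟨X, sX, F, h1, h2, h3, h4⟩ := main p (AlgebraicClosure (ZMod p))
  refine ⟨p, hpf, AlgebraicClosure (ZMod p), inferInstance, inferInstance, inferInstance,
    X, sX, F, p, p, hp2.one_lt.le, h1, h2, h3, h4, ?_⟩
  have h5 : 1 / a < p := by
    have h6 : 1 / a ≤ ⌈1 / a⌉₊ := Nat.le_ceil _
    have h7 : ((⌈1 / a⌉₊ + 1 : ℕ) : ℝ) ≤ p := by exact_mod_cast hp1
    push_cast at h7
    linarith
  have hp0 : (0 : ℝ) < p := by exact_mod_cast hp2.pos
  rw [div_lt_iff₀ ha] at h5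
  calc (p : ℝ) = p * 1 := (mul_one _).symm
    _ < p * (p * a) := mul_lt_mul_of_pos_left h5 hp0
    _ = a * (p : ℝ) ^ 2 := by ring

end Pool.Agent.Results.MP_c134c3_ag.NoQuadraticBound
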